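import Pool.Agent.Lib.Pinwheel.Final

/-!
# Pinwheel Scheduling is PSPACE-hard in the standard representation
-/

namespace Pool.Agent.Results.MP_858978_lc.PSPACEHard

open Turing

/-- An instance of Pinwheel Scheduling: positive integers `f 0 ≤ f 1 ≤ ... ≤ f (n - 1)`, the
frequencies. -/
structure Inst where
  /-- number of jobs -/
  n : ℕ
  /-- the frequencies -/
  f : Fin n → ℕ
  mono : Monotone f
  pos : ∀ i, 0 < f i

/-- The instance is feasible: there is a schedule `S`, assigning one job to each day, in which the
job `i` occurs at least once among any `f i` consecutive days. -/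
def Inst.Feasible (I : Inst) : Prop :=
  ∃ S : ℕ → Fin I.n, ∀ (i : Fin I.n) (t : ℕ), ∃ s, t ≤ s ∧ s < t + I.f i ∧ S s = i

/-- The word of an instance in the standard representation, over the alphabet `some false`,
`some true`, `none`: the list of the frequencies, each written in binary and followed by the
separator `none`. -/
def Inst.encode (I : Inst) : List (Option Bool) :=
  (List.ofFn I.f).flatMap fun q => (Nat.bits q).map some ++ [none]

open Classical in
/-- The language `L` of binary words is in PSPACE: there are a Turing machine (of Mathlib, with
finitely many stacks; binary input on one stack and one bit of output on another) and a polynomial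
`p` such that the machine, started with any word `x`, halts with the output `x ∈ L`, and all
stacks have length at most `p |x|` in all configurations of the computation. -/
def InPSPACE (L : Set (List Bool)) : Prop :=
  ∃ (tm : FinTM2) (ea : tm.Γ tm.k₀ ≃ Bool) (eb : tm.Γ tm.k₁ ≃ Bool) (p : Polynomial ℕ), ∀ x,
    (∃ t, (flip bind tm.step)^[t] (some (initList tm (x.map ea.invFun))) =
      some (haltList tm [eb.invFun (decide (x ∈ L))])) ∧
    ∀ t c, (flip bind tm.step)^[t] (some (initList tm (x.map ea.invFun))) = some c →
      ∀ k, (c.stk k).length ≤ p.eval x.length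

/-- **Pinwheel Scheduling is PSPACE-hard** in the standard representation: for every language `L`
in PSPACE there is a polynomial time computable function `r` (in the sense of Mathlib) from words
to instances such that `x ∈ L` if and only if `r x` is feasible. Moreover the frequencies of `r x`
are at most `p |x|` for a polynomial `p` (so the problem is hard even if the frequencies are
written in unary). -/
theorem result (L : Set (List Bool)) (hL : InPSPACE L) :
    ∃ r : List Bool → Inst,
      Nonempty (TM2ComputableInPolyTime (fun x : List Bool => x) Inst.encode r) ∧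
      (∀ x, x ∈ L ↔ (r x).Feasible) ∧
      ∃ p : Polynomial ℕ, ∀ x i, (r x).f i ≤ p.eval x.length := by
  classical
  obtain ⟨F, hF, h⟩ := Pool.Agent.Lib.Pinwheel.hard (V := fun x => decide (x ∈ L)) hL
  have hmono : ∀ x, Monotone fun i : Fin (F x).length => (F x)[i] := by
    intro x i j hij
    rcases hij.eq_or_lt with rfl | hlt
    · exact le_rfl
    · exact List.pairwise_iff_getElem.1 (h x).1 i j i.2 j.2 hlt
  refine ⟨fun x => ⟨(F x).length, fun i => (F x)[i], hmono x,
    fun i => (h x).2.1 _ (List.getElem_mem _)⟩, ?_, fun x => ?_, ?_⟩
  · refine (Pool.Agent.Lib.Pinwheel.polyF_encode hF).tm2 fun x => ?_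
    show Pool.Agent.Lib.Pinwheel.encode (F x) =
      (List.ofFn fun i : Fin (F x).length => (F x)[i]).flatMap _
    rw [show (List.ofFn fun i : Fin (F x).length => (F x)[i]) = F x from List.ofFn_getElem]
    rfl
  · exact (decide_eq_true_iff (p := x ∈ L)).symm.trans (h x).2.2.1
  · obtain ⟨p, hp⟩ := Pool.Agent.Lib.Pinwheel.bound_of_polyF hF
    exact ⟨p, fun x i => hp x _ (List.getElem_mem _)⟩

end Pool.Agent.Results.MP_858978_lc.PSPACEHard
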